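import Pool.Agent.Q145.PQ.Stm
import Pool.Agent.Q151.LQ.Base
import Pool.Agent.Q213.LS.VarS

/-!
# Project PQ, job VARP: the variance of the truncated sum (helper177; after helper151, `Pool/Agent/Q151/LQ/VARQ.lean`)
-/

set_option autoImplicit false

namespace Pool.Agent.Q177.PQ

open Finset Filter
open Pool.Agent.Q145.SZ Pool.Agent.Q145.PQ
open Pool.Agent.Q145.LQ (Sys SbQ nuQ)

theorem locP_mod {K : ℕ} (q : Fin K → Polynomial ℤ) (s : Fin K → ℕ) (p : ℕ) :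
    locP q (fun i => s i % p) p = locP q s p := by
  have : nuP q (fun i => s i % p) p = nuP q s p := by
    unfold nuP
    congr 1
    refine filter_congr fun n _ => ?_
    refine or_congr_right (exists_congr fun i => ?_)
    have h : ((s i % p : ℕ) : ℤ) = (s i : ℤ) % p := Int.natCast_mod _ _
    rw [h]
    have h2 : ((q i).eval (n : ℤ) + (s i : ℤ)) = ((q i).eval (n : ℤ) + (s i : ℤ) % p) + p * ((s i : ℤ) / p) := by
      have := Int.emod_add_mul_ediv (s i : ℤ) p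
      linarith
    rw [h2]
    exact (Int.dvd_add_left (Dvd.intro _ rfl)).symm
  unfold locP
  rw [this]

theorem nuP_le {K : ℕ} (q : Fin K → Polynomial ℤ) (s : Fin K → ℕ) (p : ℕ) :
    nuP q s p ≤ nuQ q s p + 1 := by
  classical
  unfold nuP nuQ
  have h1 : ((range p).filter fun n : ℕ => n = 0 ∨ ∃ i, (p : ℤ) ∣ (q i).eval (n : ℤ) + s i) ⊆
      ((range p).filter fun n : ℕ => ∃ i, (p : ℤ) ∣ (q i).eval (n : ℤ) + s i) ∪ {0} := by
    intro n hn
    rw [mem_filter] at hn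
    rw [mem_union, mem_filter, mem_singleton]
    rcases hn.2 with h | h
    · exact Or.inr h
    · exact Or.inl ⟨hn.1, h⟩
  have h2 := (card_le_card h1).trans (card_union_le _ _)
  rw [card_singleton] at h2
  exact h2

/-- `locP` is between `7/8` and `8/7` -/
theorem locP_bds {d K : ℕ} (q : Fin K → Polynomial ℤ) (s : Fin K → ℕ) {p : ℕ} (hp : p.Prime)
    (hq : ∀ i, 1 ≤ (q i).natDegree ∧ (q i).natDegree ≤ d ∧ ¬ (p : ℤ) ∣ (q i).leadingCoeff)
    (hK : 8 * d * (K + 1) ≤ p) :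
    7 / 8 ≤ locP q s p ∧ locP q s p ≤ 8 / 7 := by
  have hp0 : (0 : ℝ) < p := by exact_mod_cast hp.pos
  have hp2 : (2 : ℝ) ≤ p := by exact_mod_cast hp.two_le
  have h2 : 1 / (p : ℝ) ≤ 1 / 2 := one_div_le_one_div_of_le two_pos hp2
  rcases Nat.eq_zero_or_pos K with hK0 | hK0
  · subst hK0
    have h1 : nuP q s p = 1 := by
      unfold nuP
      rw [card_eq_one]
      refine ⟨0, ?_⟩
      ext n
      rw [mem_filter, mem_singleton, mem_range]
      constructor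
      · rintro ⟨_, h | ⟨i, _⟩⟩
        · exact h
        · exact i.elim0
      · rintro rfl
        exact ⟨hp.pos, Or.inl rfl⟩
    unfold locP
    rw [h1]
    have h3 : (1 - 1 / (p : ℝ)) ≠ 0 := by linarith
    rw [zero_add, pow_one, Nat.cast_one, div_self h3]
    norm_num
  have hd1 : 1 ≤ d := (hq ⟨0, hK0⟩).1.trans (hq ⟨0, hK0⟩).2.1
  have hd1' : (1 : ℝ) ≤ d := by exact_mod_cast hd1
  have hKr' : 8 * (d : ℝ) * ((K : ℝ) + 1) ≤ p := by exact_mod_cast hK
  have hK0' : (0 : ℝ) ≤ K := Nat.cast_nonneg _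
  have hKr : 8 * ((K : ℝ) + 1) ≤ p := by nlinarith
  have hν : (nuP q s p : ℝ) ≤ d * K + 1 := by
    exact_mod_cast (nuP_le q s p).trans (Nat.add_le_add_right (Pool.Agent.Q151.LQ.nuQ_le_mul q s hp hq) 1)
  have hν0 : (0 : ℝ) ≤ nuP q s p := Nat.cast_nonneg _
  have h1 : (nuP q s p : ℝ) / p ≤ 1 / 8 := by
    rw [div_le_div_iff₀ hp0 (by norm_num)]
    nlinarith
  have h1' : 0 ≤ (nuP q s p : ℝ) / p := by positivity
  have h3 : (7 : ℝ) / 8 ≤ (1 - 1 / (p : ℝ)) ^ (K + 1) := by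
    have h4 := one_add_mul_le_pow (a := -(1 / (p : ℝ))) (by linarith) (K + 1)
    have h5 : ((K : ℝ) + 1) * (1 / p) ≤ 1 / 8 := by
      rw [mul_one_div, div_le_div_iff₀ hp0 (by norm_num)]
      linarith
    have h6 : 1 + ((K + 1 : ℕ) : ℝ) * (-(1 / (p : ℝ))) = 1 - ((K : ℝ) + 1) * (1 / p) := by
      push_cast
      ring
    rw [h6] at h4
    have h7 : (1 + -(1 / (p : ℝ))) ^ (K + 1) = (1 - 1 / (p : ℝ)) ^ (K + 1) := by ring
    rw [h7] at h4
    linarith
  have h4 : 0 < (1 - 1 / (p : ℝ)) ^ (K + 1) := by linarith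
  have h5 : (1 - 1 / (p : ℝ)) ^ (K + 1) ≤ 1 := by
    refine pow_le_one₀ (by linarith) ?_
    have : 0 < 1 / (p : ℝ) := by positivity
    linarith
  unfold locP
  constructor
  · rw [le_div_iff₀ h4]
    linarith
  · rw [div_le_iff₀ h4]
    linarith

theorem abs_locP {d K : ℕ} (q : Fin K → Polynomial ℤ) (s : Fin K → ℕ) {p : ℕ} (hp : p.Prime)
    (hq : ∀ i, 1 ≤ (q i).natDegree ∧ (q i).natDegree ≤ d ∧ ¬ (p : ℤ) ∣ (q i).leadingCoeff)
    (hK : 8 * d * (K + 1) ≤ p) :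
    |locP q s p - 1| ≤ 1 := by
  obtain ⟨h1, h2⟩ := locP_bds q s hp hq hK
  rw [abs_le]
  constructor <;> linarith

variable {W : ℕ} [NeZero W]

omit [NeZero W] in
theorem len_le {K : ℕ} (X : ℕ) (H : Fin K → ℕ) (hH : ∀ i, X ≤ H i) (i : Fin K) :
    (X : ℝ) / W ≤ (H i : ℝ) / W := by
  have h2 : (X : ℝ) ≤ (H i : ℝ) := by exact_mod_cast hH i
  exact div_le_div_of_nonneg_right h2 (Nat.cast_nonneg _)

theorem diag (hLM : S_LMP) {d K X p : ℕ} (H : Fin K → ℕ) (q : Fin K → Polynomial ℤ) (hH : ∀ i, X ≤ H i) (hp : p.Prime)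
    (hq : ∀ i, 1 ≤ (q i).natDegree ∧ (q i).natDegree ≤ d ∧ ¬ (p : ℤ) ∣ (q i).leadingCoeff)
    (hK : 8 * d * (K + 1) ≤ p) (hW : W.Coprime p)
    (hT : 4 * (K + 1) * (p : ℝ) ≤ (X : ℝ) / W) (b : Fin K → ZMod W) :
    ∑ s ∈ SbQ H b, (locP q s p - 1) ^ 2 ≤
      (16 * d * K / (p : ℝ) ^ 2 + 8 * K * p / ((X : ℝ) / W)) * (SbQ H b).card := by
  have hp0 : (0 : ℝ) < p := by exact_mod_cast hp.pos
  have h1 := Pool.Agent.Q145.LS.VarS.den (fun i => cls (H i) (b i)) (fun s => s % p) (range p) ((X : ℝ) / W)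
    (fun i => (H i : ℝ) / W) (len_le X H hH)
    ⟨0, mem_range.2 hp.pos⟩ (by rw [card_range]; exact hT)
    (fun i s _ => mem_range.2 (Nat.mod_lt _ hp.pos)) (fun i x hx => by
      rw [card_range]
      have h2 := Pool.Agent.Q261.SZ.cnt_cls (H i) p x hp.pos hW (b i)
      have h3 : (cls (H i) (b i)).filter (fun s => s % p = x) =
          (cls (H i) (b i)).filter fun s => s ≡ x [MOD p] := by
        refine filter_congr fun s _ => ?_
        rw [Nat.ModEq, Nat.mod_eq_of_lt (mem_range.1 hx)]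
      rw [h3]
      exact h2) (fun x => (locP q x p - 1) ^ 2) (fun x _ => by
      rw [abs_of_nonneg (sq_nonneg _)]
      have := abs_locP q x hp hq hK
      nlinarith [sq_abs (locP q x p - 1), abs_nonneg (locP q x p - 1)])
  rw [card_range] at h1
  simp only [locP_mod] at h1
  have h2 := (hLM d p K q hp hK hq).2
  have h3 := (abs_le.1 h1).2
  change ∑ s ∈ SbQ H b, (locP q s p - 1) ^ 2 - ((SbQ H b).card : ℝ) / (p : ℝ) ^ K *
    ∑ x ∈ Fintype.piFinset (fun _ : Fin K => range p), (locP q x p - 1) ^ 2 ≤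
      8 * K * p / ((X : ℝ) / W) * (SbQ H b).card at h3
  have h4 : ((SbQ H b).card : ℝ) / (p : ℝ) ^ K *
    ∑ x ∈ Fintype.piFinset (fun _ : Fin K => range p), (locP q x p - 1) ^ 2 ≤
      ((SbQ H b).card : ℝ) / (p : ℝ) ^ K * (16 * d * K / (p : ℝ) ^ 2 * (p : ℝ) ^ K) := by
    gcongr
  have h5 : ((SbQ H b).card : ℝ) / (p : ℝ) ^ K *
      (16 * d * K / (p : ℝ) ^ 2 * (p : ℝ) ^ K) =
      16 * d * K / (p : ℝ) ^ 2 * (SbQ H b).card := by
    have : (p : ℝ) ^ K ≠ 0 := by positivity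
    field_simp
  rw [h5] at h4
  linarith

theorem offdiag (hLM : S_LMP) {d K X p p' : ℕ} (H : Fin K → ℕ) (q : Fin K → Polynomial ℤ) (hH : ∀ i, X ≤ H i)
    (hp : p.Prime) (hq : ∀ i, 1 ≤ (q i).natDegree ∧ (q i).natDegree ≤ d ∧ ¬ (p : ℤ) ∣ (q i).leadingCoeff)
    (hK : 8 * d * (K + 1) ≤ p) (hW : W.Coprime p)
    (hp' : p'.Prime) (hq' : ∀ i, 1 ≤ (q i).natDegree ∧ (q i).natDegree ≤ d ∧ ¬ (p' : ℤ) ∣ (q i).leadingCoeff)
    (hK' : 8 * d * (K + 1) ≤ p')
    (hW' : W.Coprime p') (hne : p ≠ p')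
    (hT : 4 * (K + 1) * ((p : ℝ) * p') ≤ (X : ℝ) / W) (b : Fin K → ZMod W) :
    ∑ s ∈ SbQ H b, (locP q s p - 1) * (locP q s p' - 1) ≤
      8 * K * ((p : ℝ) * p') / ((X : ℝ) / W) * (SbQ H b).card := by
  have hco : p.Coprime p' := (Nat.coprime_primes hp hp').2 hne
  have hcard : ((range p ×ˢ range p').card : ℝ) = (p : ℝ) * p' := by
    rw [card_product, card_range, card_range]
    push_cast
    rfl
  have h1 := Pool.Agent.Q145.LS.VarS.den (fun i => cls (H i) (b i)) (fun s => (s % p, s % p')) (range p ×ˢ range p')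
    ((X : ℝ) / W) (fun i => (H i : ℝ) / W) (len_le X H hH)
    ⟨(0, 0), mem_product.2 ⟨mem_range.2 hp.pos, mem_range.2 hp'.pos⟩⟩ (by rw [hcard]; exact hT)
    (fun i s _ => mem_product.2 ⟨mem_range.2 (Nat.mod_lt _ hp.pos),
      mem_range.2 (Nat.mod_lt _ hp'.pos)⟩) (fun i x hx => by
      rw [hcard]
      rw [mem_product, mem_range, mem_range] at hx
      obtain ⟨c, hc1, hc2⟩ := Nat.chineseRemainder hco x.1 x.2
      have h2 := Pool.Agent.Q261.SZ.cnt_cls (H i) (p * p') c (Nat.mul_pos hp.pos hp'.pos) (hW.mul_right hW') (b i)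
      have h3 : (cls (H i) (b i)).filter (fun s => (s % p, s % p') = x) =
          (cls (H i) (b i)).filter fun s => s ≡ c [MOD (p * p')] := by
        refine filter_congr fun s _ => ?_
        rw [← Nat.modEq_and_modEq_iff_modEq_mul hco, Prod.ext_iff]
        have e1 : s % p = x.1 ↔ s ≡ c [MOD p] := by
          have : c % p = x.1 := by
            rw [hc1, Nat.mod_eq_of_lt hx.1]
          rw [Nat.ModEq, this]
        have e2 : s % p' = x.2 ↔ s ≡ c [MOD p'] := by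
          have : c % p' = x.2 := by
            rw [hc2, Nat.mod_eq_of_lt hx.2]
          rw [Nat.ModEq, this]
        exact and_congr e1 e2
      rw [h3]
      rw [Nat.cast_mul p p'] at h2
      exact h2)
      (fun x => (locP q (fun i => (x i).1) p - 1) * (locP q (fun i => (x i).2) p' - 1))
      (fun x _ => by
        rw [abs_mul]
        exact mul_le_one₀ (abs_locP q _ hp hq hK) (abs_nonneg _) (abs_locP q _ hp' hq' hK'))
  rw [hcard] at h1
  have h2 : ∑ x ∈ Fintype.piFinset (fun _ : Fin K => range p ×ˢ range p'),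
      (locP q (fun i => (x i).1) p - 1) * (locP q (fun i => (x i).2) p' - 1) = 0 := by
    rw [Pool.Agent.Q261.SZ.piProd (range p) (range p') (fun x => locP q x p - 1)
      (fun x => locP q x p' - 1), (hLM d p K q hp hK hq).1, zero_mul]
  rw [h2, mul_zero, sub_zero] at h1
  simp only [locP_mod] at h1
  exact (abs_le.1 h1).2

theorem var_gen (hLM : S_LMP) {C : ℝ} (hC : 0 < C) (hSQ : ∀ z w : ℕ, 2 ≤ z →
    ∑ p ∈ (Ioc z w).filter Nat.Prime, 1 / (p : ℝ) ^ 2 ≤ C / 2 / ((z : ℝ) * Real.log z))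
    (d z X Y K : ℕ) (H : Fin K → ℕ) (q : Fin K → Polynomial ℤ) (hz : 2 ≤ z) (hK : 8 * d * (K + 1) ≤ z)
    (hH : ∀ i, X ≤ H i)
    (hq : ∀ i, 1 ≤ (q i).natDegree ∧ (q i).natDegree ≤ d ∧ (q i).leadingCoeff.natAbs ≤ z)
    (hX : 16 * (K + 1) * (Y : ℝ) ^ 4 * W ≤ X)
    (hco : ∀ p : ℕ, p.Prime → z < p → W.Coprime p) (b : Fin K → ZMod W) :
    ∑ s ∈ SbQ H b, (∑ p ∈ (Ioc z Y).filter Nat.Prime, (locP q s p - 1)) ^ 2 ≤
      (C / Real.log z + 16 * (K + 1) * (Y : ℝ) ^ 4 * W / X) * (SbQ H b).card ∧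
    ∑ s ∈ SbQ H b, ∑ p ∈ (Ioc z Y).filter Nat.Prime, (locP q s p - 1) ^ 2 ≤
      (C / Real.log z + 16 * (K + 1) * (Y : ℝ) ^ 4 * W / X) * (SbQ H b).card := by
  set P := (Ioc z Y).filter Nat.Prime with hP
  have hW0 : (0 : ℝ) < W := by exact_mod_cast Nat.pos_of_ne_zero (NeZero.ne W)
  have hmem : ∀ p ∈ P, p.Prime ∧ z < p ∧ p ≤ Y ∧ 8 * d * (K + 1) ≤ p ∧ W.Coprime p ∧
      ∀ i, 1 ≤ (q i).natDegree ∧ (q i).natDegree ≤ d ∧ ¬ (p : ℤ) ∣ (q i).leadingCoeff := by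
    intro p hp
    rw [hP, mem_filter, mem_Ioc] at hp
    refine ⟨hp.2, hp.1.1, hp.1.2, by omega, hco p hp.2 hp.1.1, fun i => ⟨(hq i).1, (hq i).2.1, ?_⟩⟩
    exact Pool.Agent.Q151.LQ.not_dvd_lead (hq i).1 (hq i).2.2 hp.1.1
  have hlog : 0 < Real.log z := Real.log_pos (by exact_mod_cast (show 1 < z by omega))
  set N : ℝ := ((SbQ H b).card : ℝ) with hN
  have hN0 : 0 ≤ N := Nat.cast_nonneg _
  set T : ℝ := (X : ℝ) / W with hT
  rcases P.eq_empty_or_nonempty with hPe | ⟨p0, hp0⟩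
  · rw [hPe]
    simp only [sum_empty]
    have h1 : 0 ≤ (C / Real.log z + 16 * (K + 1) * (Y : ℝ) ^ 4 * W / X) * N := by positivity
    constructor
    · simpa using h1
    · simpa using h1
  have hY1 : (1 : ℝ) ≤ Y := by
    have := hmem p0 hp0
    have h2 := this.1.pos
    exact_mod_cast (show 1 ≤ Y by omega)
  have hTY : 16 * (K + 1) * (Y : ℝ) ^ 4 ≤ T := by
    rw [hT, le_div_iff₀ hW0]
    exact hX
  have hT0 : 0 < T := lt_of_lt_of_le (by positivity) hTY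
  have hY2 : (Y : ℝ) ^ 2 ≤ (Y : ℝ) ^ 4 := pow_le_pow_right₀ hY1 (by norm_num)
  have hY12 : (Y : ℝ) ≤ (Y : ℝ) ^ 2 := by nlinarith
  have hKr : (0 : ℝ) ≤ K := Nat.cast_nonneg _
  have hdr : (0 : ℝ) ≤ d := Nat.cast_nonneg _
  have hcard : (P.card : ℝ) ≤ Y := by
    have h1 : P.card ≤ (Ioc z Y).card := card_filter_le _ _
    rw [Nat.card_Ioc] at h1
    exact_mod_cast (show P.card ≤ Y by omega)
  have hX0 : 0 < (X : ℝ) := by
    have : T * W = X := by rw [hT]; field_simp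
    rw [← this]
    positivity
  have hsq : ∑ p ∈ P, 16 * (d : ℝ) * K / (p : ℝ) ^ 2 ≤ C / Real.log z := by
    have h1 : ∑ p ∈ P, 16 * (d : ℝ) * K / (p : ℝ) ^ 2 =
        16 * (d : ℝ) * K * ∑ p ∈ P, 1 / (p : ℝ) ^ 2 := by
      rw [mul_sum]
      exact sum_congr rfl fun _ _ => by ring
    rw [h1]
    have h2 := hSQ z Y hz
    have hz0 : (0 : ℝ) < z := by exact_mod_cast (show 0 < z by omega)
    have h3 : 16 * (d : ℝ) * K ≤ 2 * z := by
      have : 8 * (d : ℝ) * ((K : ℝ) + 1) ≤ z := by exact_mod_cast hK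
      nlinarith [mul_nonneg hdr hKr]
    calc 16 * (d : ℝ) * K * ∑ p ∈ P, 1 / (p : ℝ) ^ 2 ≤
          2 * (z : ℝ) * (C / 2 / ((z : ℝ) * Real.log z)) := by
            refine mul_le_mul h3 h2 (sum_nonneg fun _ _ => by positivity) (by positivity)
      _ = C / Real.log z := by field_simp
  have hWX : (W : ℝ) / X = 1 / T := by
    rw [hT]
    field_simp
  have hrhs : C / Real.log z + 16 * (K + 1) * (Y : ℝ) ^ 4 * W / X =
      C / Real.log z + 16 * (K + 1) * (Y : ℝ) ^ 4 / T := by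
    rw [mul_div_assoc _ (W : ℝ), hWX]
    ring
  rw [hrhs]
  have hd : ∀ p ∈ P, ∑ s ∈ SbQ H b, (locP q s p - 1) ^ 2 ≤
      16 * (d : ℝ) * K / (p : ℝ) ^ 2 * N + 8 * K * (Y : ℝ) ^ 2 / T * N := by
    intro p hp
    obtain ⟨h1, h2, h3, h4, h5, hap⟩ := hmem p hp
    have h3' : (p : ℝ) ≤ Y := by exact_mod_cast h3
    have h6 : 4 * (K + 1) * (p : ℝ) ≤ T := by
      refine le_trans ?_ hTY
      have : (p : ℝ) ≤ (Y : ℝ) ^ 4 := by linarith
      nlinarith
    have h7 := diag hLM H q hH h1 hap h4 h5 h6 b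
    rw [← hT, ← hN] at h7
    refine h7.trans ?_
    rw [add_mul]
    have h8 : 8 * (K : ℝ) * p / T ≤ 8 * K * (Y : ℝ) ^ 2 / T := by
      gcongr
      linarith
    have h9 := mul_le_mul_of_nonneg_right h8 hN0
    linarith
  have ho : ∀ p ∈ P, ∀ p' ∈ P, ∑ s ∈ SbQ H b, (locP q s p - 1) * (locP q s p' - 1) ≤
      (if p = p' then 16 * (d : ℝ) * K / (p : ℝ) ^ 2 * N else 0) +
        8 * K * (Y : ℝ) ^ 2 / T * N := by
    intro p hp p' hp'
    split_ifs with h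
    · subst h
      have := hd p hp
      simpa only [← sq] using this
    · obtain ⟨h1, h2, h3, h4, h5, hap⟩ := hmem p hp
      obtain ⟨k1, k2, k3, k4, k5, kap⟩ := hmem p' hp'
      have h3' : (p : ℝ) ≤ Y := by exact_mod_cast h3
      have k3' : (p' : ℝ) ≤ Y := by exact_mod_cast k3
      have hpp : (p : ℝ) * p' ≤ (Y : ℝ) ^ 2 := by
        rw [sq]
        gcongr
      have h6 : 4 * (K + 1) * ((p : ℝ) * p') ≤ T := by
        refine le_trans ?_ hTY
        have : (p : ℝ) * p' ≤ (Y : ℝ) ^ 4 := by linarith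
        have h0 : (0 : ℝ) ≤ (p : ℝ) * p' := by positivity
        nlinarith
      have h7 := offdiag hLM H q hH h1 hap h4 h5 k1 kap k4 k5 h h6 b
      refine h7.trans ?_
      rw [zero_add]
      have h8 : 8 * (K : ℝ) * ((p : ℝ) * p') / T ≤ 8 * K * (Y : ℝ) ^ 2 / T := by
        gcongr
      exact mul_le_mul_of_nonneg_right h8 hN0
  constructor
  · have h1 : ∑ s ∈ SbQ H b, (∑ p ∈ P, (locP q s p - 1)) ^ 2 =
        ∑ p ∈ P, ∑ p' ∈ P, ∑ s ∈ SbQ H b, (locP q s p - 1) * (locP q s p' - 1) := by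
      have h2 : ∀ s : Fin K → ℕ, (∑ p ∈ P, (locP q s p - 1)) ^ 2 =
          ∑ p ∈ P, ∑ p' ∈ P, (locP q s p - 1) * (locP q s p' - 1) := by
        intro s
        rw [sq, sum_mul_sum]
      simp only [h2]
      rw [sum_comm]
      refine sum_congr rfl fun p _ => ?_
      rw [sum_comm]
    rw [h1]
    refine (sum_le_sum fun p hp => sum_le_sum fun p' hp' => ho p hp p' hp').trans ?_
    simp only [sum_add_distrib, sum_ite_eq, sum_const, nsmul_eq_mul]
    have h2 : ∑ p ∈ P, (if p ∈ P then 16 * (d : ℝ) * K / (p : ℝ) ^ 2 * N else 0) =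
        (∑ p ∈ P, 16 * (d : ℝ) * K / (p : ℝ) ^ 2) * N := by
      rw [sum_mul]
      exact sum_congr rfl fun p hp => if_pos hp
    rw [h2]
    have h3 : (P.card : ℝ) * (P.card * (8 * K * (Y : ℝ) ^ 2 / T * N)) ≤
        16 * (K + 1) * (Y : ℝ) ^ 4 / T * N := by
      calc (P.card : ℝ) * (P.card * (8 * K * (Y : ℝ) ^ 2 / T * N)) ≤
            Y * (Y * (8 * K * (Y : ℝ) ^ 2 / T * N)) := by gcongr
        _ = 8 * K * (Y : ℝ) ^ 4 / T * N := by ring
        _ ≤ 16 * (K + 1) * (Y : ℝ) ^ 4 / T * N := by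
          refine mul_le_mul_of_nonneg_right ?_ hN0
          gcongr
          · norm_num
          · linarith
    have h4 := mul_le_mul_of_nonneg_right hsq hN0
    rw [add_mul]
    linarith
  · rw [sum_comm]
    refine (sum_le_sum hd).trans ?_
    rw [sum_add_distrib, ← sum_mul, sum_const, nsmul_eq_mul, add_mul]
    have h3 : (P.card : ℝ) * (8 * K * (Y : ℝ) ^ 2 / T * N) ≤
        16 * (K + 1) * (Y : ℝ) ^ 4 / T * N := by
      calc (P.card : ℝ) * (8 * K * (Y : ℝ) ^ 2 / T * N) ≤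
            Y * (8 * K * (Y : ℝ) ^ 2 / T * N) := by gcongr
        _ ≤ (Y : ℝ) ^ 2 * (8 * K * (Y : ℝ) ^ 2 / T * N) := by gcongr
        _ = 8 * K * (Y : ℝ) ^ 4 / T * N := by ring
        _ ≤ 16 * (K + 1) * (Y : ℝ) ^ 4 / T * N := by
          refine mul_le_mul_of_nonneg_right ?_ hN0
          gcongr
          · norm_num
          · linarith
    have h4 := mul_le_mul_of_nonneg_right hsq hN0
    linarith

theorem t_VARP : S_VARP := by
  intro hLM hSQ
  obtain ⟨C, hC, hSQ⟩ := hSQ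
  have hC2 : 2 * C / 2 = C := by ring
  exact ⟨2 * C, by positivity, fun d z w Y X K H q hz hK hS hX b => var_gen hLM (by positivity)
    (fun z w hz => by rw [hC2]; exact hSQ z w hz) d z X w K H q hz hK
    (fun i => (hS.scale i).1) (fun i => ⟨(hS.deg i).1, (hS.deg i).2, hS.lead i⟩) hX
    (fun p hp hzp => Pool.Agent.Q261.SZ.coprime_PW hp hzp) b⟩

end Pool.Agent.Q177.PQ

/-- the job VARP -/
theorem Pool.Agent.Q145.PQ.t_VARP : Pool.Agent.Q145.PQ.S_VARP := Pool.Agent.Q177.PQ.t_VARP
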